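import Mathlib
set_option autoImplicit false
namespace Pool.Agent.Helper722.TH
open Matrix Filter Topology

noncomputable section

variable {m n p : Type} [Fintype m] [Fintype n] [Fintype p] [DecidableEq m] [DecidableEq n] [DecidableEq p]

/-- P at scale l -/
def P (l : ℝ) (A : Matrix m n ℝ) : Matrix n n ℝ := 1 - (1 + (1 / l ^ 2) • (Aᵀ * A))⁻¹
/-- Q at scale l -/
def Q (l : ℝ) (A : Matrix m n ℝ) : Matrix m m ℝ := 1 - (1 + (1 / l ^ 2) • (A * Aᵀ))⁻¹
/-- signed pairing -/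
def E (l : ℝ) (A : Matrix m n ℝ) (B : Matrix n p ℝ) (s : n → ℝ) : ℝ :=
  trace (P l A * diagonal s * Q l B * diagonal s)
/-- truncation at scale l -/
def b (l : ℝ) (A : Matrix m n ℝ) : Matrix m n ℝ := A * (1 + (1 / l ^ 2) • (Aᵀ * A))⁻¹
/-- the trilinear form -/
def Dm (sm : m → ℝ) (sn : n → ℝ) (sp : p → ℝ) (A : Matrix m n ℝ) (B : Matrix n p ℝ) (C : Matrix p m ℝ) : ℝ :=
  trace (diagonal sm * A * diagonal sn * B * diagonal sp * C)

lemma posdef (c : ℝ) (hc : 0 ≤ c) (A : Matrix m n ℝ) : (1 + c • (Aᵀ * A)).PosDef := by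
  have h1 : (Aᵀ * A).PosSemidef := by
    have := Matrix.posSemidef_conjTranspose_mul_self A
    simpa using this
  exact Matrix.PosDef.one.add_posSemidef (h1.smul hc)

lemma udet (c : ℝ) (hc : 0 ≤ c) (A : Matrix m n ℝ) : IsUnit (1 + c • (Aᵀ * A)).det :=
  (Matrix.isUnit_iff_isUnit_det _).1 (posdef c hc A).isUnit

lemma udet' (c : ℝ) (hc : 0 ≤ c) (A : Matrix m n ℝ) : IsUnit (1 + c • (A * Aᵀ)).det := by
  simpa using udet c hc Aᵀ

lemma push (c : ℝ) (hc : 0 ≤ c) (A : Matrix m n ℝ) :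
    A * (1 + c • (Aᵀ * A))⁻¹ = (1 + c • (A * Aᵀ))⁻¹ * A := by
  have h : (1 + c • (A * Aᵀ)) * A = A * (1 + c • (Aᵀ * A)) := by
    simp [Matrix.add_mul, Matrix.mul_add, Matrix.mul_assoc]
  have h2 := udet c hc A
  have h1 := udet' c hc A
  calc A * (1 + c • (Aᵀ * A))⁻¹ = ((1 + c • (A * Aᵀ))⁻¹ * (1 + c • (A * Aᵀ))) * A * (1 + c • (Aᵀ * A))⁻¹ := by
        rw [Matrix.nonsing_inv_mul _ h1, Matrix.one_mul]
    _ = (1 + c • (A * Aᵀ))⁻¹ * (((1 + c • (A * Aᵀ)) * A) * (1 + c • (Aᵀ * A))⁻¹) := by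
        simp only [Matrix.mul_assoc]
    _ = (1 + c • (A * Aᵀ))⁻¹ * A := by
        rw [h, Matrix.mul_assoc A, Matrix.mul_nonsing_inv _ h2, Matrix.mul_one]

lemma Q_eq (l : ℝ) (A : Matrix m n ℝ) : Q l A = P l Aᵀ := by simp [P, Q]

lemma inv_symm (c : ℝ) (A : Matrix m n ℝ) : ((1 + c • (Aᵀ * A))⁻¹)ᵀ = (1 + c • (Aᵀ * A))⁻¹ := by
  rw [Matrix.transpose_nonsing_inv]
  congr 1
  simp

lemma b_transpose (l : ℝ) (A : Matrix m n ℝ) : (b l A)ᵀ = b l Aᵀ := by
  unfold b
  rw [Matrix.transpose_mul, inv_symm, Matrix.transpose_transpose]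
  have := push (1 / l ^ 2) (by positivity) Aᵀ
  rw [Matrix.transpose_transpose] at this
  exact this.symm

lemma Q_one_sub (l : ℝ) (A : Matrix m n ℝ) : Q l A = (1 / l ^ 2) • (A * (b l A)ᵀ) := by
  have h1 := udet' (1 / l ^ 2) (by positivity) A
  rw [b_transpose]
  unfold Q b
  rw [Matrix.transpose_transpose]
  calc 1 - (1 + (1 / l ^ 2) • (A * Aᵀ))⁻¹
      = (1 + (1 / l ^ 2) • (A * Aᵀ)) * (1 + (1 / l ^ 2) • (A * Aᵀ))⁻¹
          - (1 + (1 / l ^ 2) • (A * Aᵀ))⁻¹ := by rw [Matrix.mul_nonsing_inv _ h1]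
    _ = ((1 / l ^ 2) • (A * Aᵀ)) * (1 + (1 / l ^ 2) • (A * Aᵀ))⁻¹ := by
        rw [Matrix.add_mul, Matrix.one_mul, add_sub_cancel_left]
    _ = (1 / l ^ 2) • (A * (Aᵀ * (1 + (1 / l ^ 2) • (A * Aᵀ))⁻¹)) := by
        rw [Matrix.smul_mul, Matrix.mul_assoc]


lemma bb (l : ℝ) (hl : 0 < l) (A : Matrix m n ℝ) : b l A * (b l A)ᵀ = l ^ 2 • (Q l A - Q l A * Q l A) := by
  have hl2 : l ^ 2 ≠ 0 := pow_ne_zero 2 hl.ne'
  have h1 : b l A = (1 - Q l A) * A := by
    unfold b Q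
    rw [sub_sub_cancel]
    exact push (1 / l ^ 2) (by positivity) A
  have h2 : A * (b l A)ᵀ = l ^ 2 • Q l A := by
    rw [Q_one_sub l A, smul_smul, mul_one_div_cancel hl2, one_smul]
  calc b l A * (b l A)ᵀ = (1 - Q l A) * (A * (b l A)ᵀ) := by
        rw [← Matrix.mul_assoc, ← h1]
    _ = l ^ 2 • (Q l A - Q l A * Q l A) := by
        rw [h2, Matrix.mul_smul, Matrix.sub_mul, Matrix.one_mul]

lemma Q_symm (l : ℝ) (A : Matrix m n ℝ) : (Q l A)ᵀ = Q l A := by
  unfold Q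
  rw [Matrix.transpose_sub, Matrix.transpose_one]
  have := inv_symm (1 / l ^ 2) Aᵀ
  rw [Matrix.transpose_transpose] at this
  rw [this]

lemma Q_sq_psd (l : ℝ) (A : Matrix m n ℝ) : (Q l A * Q l A).PosSemidef := by
  have := Matrix.posSemidef_conjTranspose_mul_self (Q l A)
  rw [Matrix.conjTranspose_eq_transpose_of_trivial, Q_symm] at this
  exact this

lemma Q_sub_sq_psd (l : ℝ) (hl : 0 < l) (A : Matrix m n ℝ) : (Q l A - Q l A * Q l A).PosSemidef := by
  have h := Matrix.posSemidef_self_mul_conjTranspose (b l A)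
  rw [Matrix.conjTranspose_eq_transpose_of_trivial, bb l hl] at h
  have h2 := h.smul (show (0:ℝ) ≤ (l ^ 2)⁻¹ by positivity)
  rw [smul_smul, inv_mul_cancel₀ (by positivity), one_smul] at h2
  exact h2

lemma Q_psd (l : ℝ) (hl : 0 < l) (A : Matrix m n ℝ) : (Q l A).PosSemidef := by
  have h := (Q_sub_sq_psd l hl A).add (Q_sq_psd l A)
  simpa using h

lemma P_psd (l : ℝ) (hl : 0 < l) (A : Matrix m n ℝ) : (P l A).PosSemidef := by
  have := Q_psd l hl Aᵀ
  rwa [Q_eq, Matrix.transpose_transpose] at this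

lemma mono_gen (c c' : ℝ) (hc' : 0 ≤ c') (hcc : c' ≤ c) (A : Matrix m n ℝ) :
    ((1 + c' • (A * Aᵀ))⁻¹ - (1 + c • (A * Aᵀ))⁻¹).PosSemidef := by
  have hc : 0 ≤ c := hc'.trans hcc
  set Y : Matrix m m ℝ := A * Aᵀ with hY
  set M : Matrix m m ℝ := (1 + c • Y)⁻¹ with hM
  set M' : Matrix m m ℝ := (1 + c' • Y)⁻¹ with hM'
  have u := udet' c hc A
  have u' := udet' c' hc' A
  rw [← hY] at u u'
  have e1 : M * (1 + c • Y) = 1 := Matrix.nonsing_inv_mul _ u
  have e2 : (1 + c • Y) * M = 1 := Matrix.mul_nonsing_inv _ u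
  have e4 : (1 + c' • Y) * M' = 1 := Matrix.mul_nonsing_inv _ u'
  have hYt : Yᵀ = Y := by
    rw [hY, Matrix.transpose_mul, Matrix.transpose_transpose]
  have hMt : Mᵀ = M := by
    rw [hM, Matrix.transpose_nonsing_inv, Matrix.transpose_add, Matrix.transpose_one,
      Matrix.transpose_smul, hYt]
  have hYM : Y * M' = A * (1 + c' • (Aᵀ * A))⁻¹ * Aᵀ := by
    have h := push c' hc' A
    rw [← hY, ← hM'] at h
    have h2 := push c' hc' Aᵀ
    rw [Matrix.transpose_transpose, ← hY, ← hM'] at h2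
    rw [hY, Matrix.mul_assoc, h2, Matrix.mul_assoc]
  have key : M' - M = (c - c') • (M * (Y * M' + c • (Y * M' * Y)) * M) := by
    have h1 : (c - c') • (Y * M' + c • (Y * M' * Y)) =
        (1 + c • Y) * M' * (1 + c • Y) - (1 + c • Y) := by
      have h2 : (1 + c • Y) * M' = 1 + (c - c') • (Y * M') := by
        have h3 : (1 + c • Y) = (1 + c' • Y) + (c - c') • Y := by
          rw [sub_smul]
          abel
        rw [h3, Matrix.add_mul, e4, Matrix.smul_mul]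
      rw [h2, Matrix.add_mul, Matrix.one_mul, add_sub_cancel_left, Matrix.smul_mul,
        Matrix.mul_add, Matrix.mul_one, Matrix.mul_smul]
    have h2 : (c - c') • (M * (Y * M' + c • (Y * M' * Y)) * M) =
        M * ((c - c') • (Y * M' + c • (Y * M' * Y))) * M := by
      rw [Matrix.mul_smul, Matrix.smul_mul]
    rw [h2, h1, Matrix.mul_sub, Matrix.sub_mul, e1, Matrix.one_mul]
    congr 1
    calc M' = (M * (1 + c • Y)) * M' * ((1 + c • Y) * M) := by
          rw [e1, e2, Matrix.one_mul, Matrix.mul_one]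
      _ = M * ((1 + c • Y) * M' * (1 + c • Y)) * M := by
          simp only [Matrix.mul_assoc]
  have p1 : (A * (1 + c' • (Aᵀ * A))⁻¹ * Aᵀ).PosSemidef := by
    have := (posdef c' hc' A).inv.posSemidef.mul_mul_conjTranspose_same A
    rwa [Matrix.conjTranspose_eq_transpose_of_trivial] at this
  have p2 : (Y * M' * Y).PosSemidef := by
    have h := posdef c' hc' Aᵀ
    rw [Matrix.transpose_transpose, ← hY] at h
    have := h.inv.posSemidef.mul_mul_conjTranspose_same Y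
    rwa [Matrix.conjTranspose_eq_transpose_of_trivial, hYt] at this
  rw [key]
  refine Matrix.PosSemidef.smul ?_ (sub_nonneg.2 hcc)
  have p3 : (Y * M' + c • (Y * M' * Y)).PosSemidef := by
    rw [hYM] at *
    exact p1.add (p2.smul hc)
  have := p3.mul_mul_conjTranspose_same M
  rwa [Matrix.conjTranspose_eq_transpose_of_trivial, hMt] at this

lemma Q_mono (l : ℝ) (hl : 0 < l) (A : Matrix m n ℝ) : (Q l A - Q (2 * l) A).PosSemidef := by
  have h := mono_gen (1 / l ^ 2) (1 / (2 * l) ^ 2) (by positivity)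
    (one_div_le_one_div_of_le (by positivity) (by nlinarith)) A
  unfold Q
  rwa [sub_sub_sub_cancel_left]


lemma P_mono (l : ℝ) (hl : 0 < l) (A : Matrix m n ℝ) : (P l A - P (2 * l) A).PosSemidef := by
  have := Q_mono l hl Aᵀ
  rwa [Q_eq, Q_eq, Matrix.transpose_transpose] at this

lemma db_eq (l : ℝ) (hl : 0 < l) (A : Matrix m n ℝ) :
    b (2 * l) A - b l A = (3:ℝ) • (Q (2 * l) A * b l A) := by
  have hc : (0:ℝ) ≤ 1 / l ^ 2 := by positivity
  have hc' : (0:ℝ) ≤ 1 / (2 * l) ^ 2 := by positivity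
  have hUi := Matrix.nonsing_inv_mul _ (udet (1 / (2 * l) ^ 2) hc' A)
  have hWi := Matrix.mul_nonsing_inv _ (udet (1 / l ^ 2) hc A)
  have hpush := push (1 / (2 * l) ^ 2) hc' A
  unfold b Q
  generalize hX : Aᵀ * A = X at *
  generalize hU : (1 + (1 / (2 * l) ^ 2) • X)⁻¹ = U at *
  generalize hW : (1 + (1 / l ^ 2) • X)⁻¹ = W at *
  generalize hY : (1 + (1 / (2 * l) ^ 2) • (A * Aᵀ))⁻¹ = Y at *
  have hcc : (1 / l ^ 2 : ℝ) = 4 * (1 / (2 * l) ^ 2) := by field_simp; norm_num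
  rw [hcc] at hWi
  generalize (1 / (2 * l) ^ 2 : ℝ) = c at *
  have e1 : U * X * W * (1 : Matrix n n ℝ) = U * X * W := Matrix.mul_one _
  have f1 : W = U * W + c • (U * X * W) := by
    have : (U * (1 + c • X)) * W = W := by rw [hUi, Matrix.one_mul]
    rw [Matrix.mul_add, Matrix.add_mul, Matrix.mul_one, Matrix.mul_smul, Matrix.smul_mul] at this
    exact this.symm
  have f2 : U = U * W + (4 * c) • (U * X * W) := by
    have : U * ((1 + (4 * c) • X) * W) = U := by rw [hWi, Matrix.mul_one]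
    rw [Matrix.add_mul, Matrix.mul_add, Matrix.one_mul, Matrix.smul_mul, Matrix.mul_smul,
      ← Matrix.mul_assoc] at this
    exact this.symm
  have f3 : U - W = (3:ℝ) • (W - U * W) := by
    have g1 : U - W = (U * W + (4 * c) • (U * X * W)) - (U * W + c • (U * X * W)) := by
      rw [← f1, ← f2]
    have g2 : W - U * W = (U * W + c • (U * X * W)) - U * W := by
      rw [← f1]
    rw [g1, g2]
    module
  rw [Matrix.sub_mul, Matrix.one_mul, ← Matrix.mul_assoc Y, ← hpush, Matrix.mul_assoc A U W,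
    ← Matrix.mul_sub, ← Matrix.mul_sub, f3, Matrix.mul_smul]


lemma tr_nonneg {M N : Matrix n n ℝ} (hM : M.PosSemidef) (hN : N.PosSemidef) : 0 ≤ trace (M * N) := by
  obtain ⟨k, v, hv⟩ := Matrix.posSemidef_iff_eq_sum_vecMulVec.mp hN
  rw [hv, Matrix.mul_sum, Matrix.trace_sum]
  refine Finset.sum_nonneg fun i _ => ?_
  rw [Matrix.mul_vecMulVec, Matrix.trace_vecMulVec, dotProduct_comm]
  exact hM.dotProduct_mulVec_nonneg (v i)


/-- trace monotone -/
lemma tr_mono {M M' N N' : Matrix n n ℝ} (hM : M.PosSemidef) (hN' : N'.PosSemidef)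
    (h1 : (M' - M).PosSemidef) (h2 : (N' - N).PosSemidef) (s : n → ℝ) :
    trace (M * diagonal s * N * diagonal s) ≤ trace (M' * diagonal s * N' * diagonal s) := by
  have hs : ∀ K : Matrix n n ℝ, K.PosSemidef →
      (diagonal s * K * diagonal s).PosSemidef := by
    intro K hK
    have h := hK.mul_mul_conjTranspose_same (diagonal s)
    rwa [Matrix.conjTranspose_eq_transpose_of_trivial, Matrix.diagonal_transpose] at h
  have e : M' * diagonal s * N' * diagonal s - M * diagonal s * N * diagonal s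
      = (M' - M) * (diagonal s * N' * diagonal s) + M * (diagonal s * (N' - N) * diagonal s) := by
    noncomm_ring
  have h3 := tr_nonneg h1 (hs N' hN')
  have h4 := tr_nonneg hM (hs _ h2)
  have h5 : trace (M' * diagonal s * N' * diagonal s) - trace (M * diagonal s * N * diagonal s)
      = trace ((M' - M) * (diagonal s * N' * diagonal s))
        + trace (M * (diagonal s * (N' - N) * diagonal s)) := by
    rw [← Matrix.trace_sub, e, Matrix.trace_add]
  linarith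


lemma cs (U : Matrix m n ℝ) (V : Matrix n m ℝ) (t : ℝ) (ht : 0 < t) :
    2 * |trace (U * V)| ≤ t⁻¹ * trace (U * Uᵀ) + t * trace (Vᵀ * V) := by
  have e1 : trace (U * V) = ∑ i, ∑ j, U i j * V j i := by
    simp [Matrix.trace, Matrix.mul_apply]
  have e2 : trace (U * Uᵀ) = ∑ i, ∑ j, U i j * U i j := by
    simp [Matrix.trace, Matrix.mul_apply]
  have e3 : trace (Vᵀ * V) = ∑ i, ∑ j, V j i * V j i := by
    simp [Matrix.trace, Matrix.mul_apply]
  have key : ∀ a b : ℝ, 2 * |a * b| ≤ t⁻¹ * (a * a) + t * (b * b) := by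
    intro a b
    have h1 : 0 ≤ t⁻¹ * (|a| - t * |b|) ^ 2 := mul_nonneg (inv_nonneg.2 ht.le) (sq_nonneg _)
    have h2 : t⁻¹ * (|a| - t * |b|) ^ 2 = t⁻¹ * (|a| * |a|) - 2 * (|a| * |b|) + t * (|b| * |b|) := by
      field_simp
      ring
    rw [h2, abs_mul_abs_self, abs_mul_abs_self] at h1
    rw [abs_mul]
    linarith
  rw [e1, e2, e3]
  calc 2 * |∑ i, ∑ j, U i j * V j i| ≤ 2 * ∑ i, ∑ j, |U i j * V j i| := by
        refine mul_le_mul_of_nonneg_left ?_ (by norm_num)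
        refine (Finset.abs_sum_le_sum_abs _ _).trans ?_
        exact Finset.sum_le_sum fun i _ => Finset.abs_sum_le_sum_abs _ _
    _ = ∑ i, ∑ j, 2 * |U i j * V j i| := by simp only [Finset.mul_sum]
    _ ≤ ∑ i, ∑ j, (t⁻¹ * (U i j * U i j) + t * (V j i * V j i)) :=
        Finset.sum_le_sum fun i _ => Finset.sum_le_sum fun j _ => key _ _
    _ = t⁻¹ * (∑ i, ∑ j, U i j * U i j) + t * (∑ i, ∑ j, V j i * V j i) := by
        simp only [Finset.sum_add_distrib, Finset.mul_sum]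


lemma term_U (l : ℝ) (hl : 0 < l) (sm : m → ℝ) (A : Matrix m n ℝ) (C C' : Matrix p m ℝ)
    (hC : ((4 * l ^ 2) • P l C - C'ᵀ * C').PosSemidef) :
    trace ((C' * diagonal sm * Q (2 * l) A) * (C' * diagonal sm * Q (2 * l) A)ᵀ)
      ≤ 4 * l ^ 2 * E l C A sm := by
  have e1 : trace ((C' * diagonal sm * Q (2 * l) A) * (C' * diagonal sm * Q (2 * l) A)ᵀ)
      = trace ((C'ᵀ * C') * diagonal sm * (Q (2 * l) A * Q (2 * l) A) * diagonal sm) := by
    rw [Matrix.transpose_mul, Matrix.transpose_mul, Q_symm, Matrix.diagonal_transpose]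
    have : (C' * diagonal sm * Q (2 * l) A) * (Q (2 * l) A * (diagonal sm * C'ᵀ))
        = (C' * (diagonal sm * (Q (2 * l) A * Q (2 * l) A) * diagonal sm)) * C'ᵀ := by
      simp only [Matrix.mul_assoc]
    rw [this, Matrix.trace_mul_comm, ← Matrix.mul_assoc]
    simp only [Matrix.mul_assoc]
  have hM : (C'ᵀ * C').PosSemidef := by
    have := Matrix.posSemidef_conjTranspose_mul_self C'
    rwa [Matrix.conjTranspose_eq_transpose_of_trivial] at this
  have hN : (Q l A - Q (2 * l) A * Q (2 * l) A).PosSemidef := by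
    have h1 := Q_mono l hl A
    have h2 := Q_sub_sq_psd (2 * l) (by positivity) A
    have h3 := h1.add h2
    rwa [sub_add_sub_cancel] at h3
  rw [e1]
  refine le_trans (tr_mono hM (Q_psd l hl A) hC hN sm) (le_of_eq ?_)
  unfold E
  rw [Matrix.smul_mul, Matrix.smul_mul, Matrix.smul_mul, Matrix.trace_smul, smul_eq_mul]

lemma term_V (l : ℝ) (hl : 0 < l) (sn : n → ℝ) (sp : p → ℝ) (hp : ∀ i, sp i ^ 2 = 1)
    (A : Matrix m n ℝ) (B B' : Matrix n p ℝ)
    (hB : ((4 * l ^ 2) • Q l B - B' * B'ᵀ).PosSemidef) :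
    trace ((b l A * diagonal sn * B' * diagonal sp)ᵀ * (b l A * diagonal sn * B' * diagonal sp))
      ≤ 4 * l ^ 4 * E l A B sn := by
  have hsp : diagonal sp * diagonal sp = (1 : Matrix p p ℝ) := by
    rw [Matrix.diagonal_mul_diagonal, ← Matrix.diagonal_one]
    congr 1
    funext i
    have := hp i
    rw [sq] at this
    exact this
  have e1 : trace ((b l A * diagonal sn * B' * diagonal sp)ᵀ * (b l A * diagonal sn * B' * diagonal sp))
      = trace (((b l A)ᵀ * b l A) * diagonal sn * (B' * B'ᵀ) * diagonal sn) := by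
    rw [Matrix.transpose_mul, Matrix.transpose_mul, Matrix.transpose_mul,
      Matrix.diagonal_transpose, Matrix.diagonal_transpose]
    have h1 : (diagonal sp * (B'ᵀ * (diagonal sn * (b l A)ᵀ)) * (b l A * diagonal sn * B' * diagonal sp))
        = (diagonal sp * B'ᵀ) * ((diagonal sn * (b l A)ᵀ) * (b l A * diagonal sn * B' * diagonal sp)) := by
      simp only [Matrix.mul_assoc]
    rw [h1, Matrix.trace_mul_comm]
    have h2 : (diagonal sn * (b l A)ᵀ * (b l A * diagonal sn * B' * diagonal sp)) * (diagonal sp * B'ᵀ)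
        = diagonal sn * (((b l A)ᵀ * b l A) * diagonal sn * (B' * (diagonal sp * diagonal sp) * B'ᵀ)) := by
      simp only [Matrix.mul_assoc]
    rw [h2, hsp, Matrix.mul_one, Matrix.trace_mul_comm]
  have hM : ((b l A)ᵀ * b l A).PosSemidef := by
    have := Matrix.posSemidef_conjTranspose_mul_self (b l A)
    rwa [Matrix.conjTranspose_eq_transpose_of_trivial] at this
  have hM' : (l ^ 2 • P l A - (b l A)ᵀ * b l A).PosSemidef := by
    have h1 := bb l hl Aᵀ
    rw [← b_transpose, Matrix.transpose_transpose, Q_eq, Matrix.transpose_transpose] at h1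
    rw [h1, smul_sub, sub_sub_cancel]
    have h2 := Q_sq_psd l Aᵀ
    rw [Q_eq, Matrix.transpose_transpose] at h2
    exact h2.smul (by positivity)
  have hQ : ((4 * l ^ 2) • Q l B).PosSemidef := (Q_psd l hl B).smul (by positivity)
  rw [e1]
  refine le_trans (tr_mono hM hQ hM' hB sn) (le_of_eq ?_)
  unfold E
  rw [Matrix.smul_mul, Matrix.mul_smul, Matrix.smul_mul, Matrix.smul_mul, Matrix.smul_mul,
    Matrix.trace_smul, Matrix.trace_smul, smul_eq_mul, smul_eq_mul]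
  ring

lemma term (l : ℝ) (hl : 0 < l) (sm : m → ℝ) (sn : n → ℝ) (sp : p → ℝ) (hp : ∀ i, sp i ^ 2 = 1)
    (A : Matrix m n ℝ) (B B' : Matrix n p ℝ) (C C' : Matrix p m ℝ)
    (hB : ((4 * l ^ 2) • Q l B - B' * B'ᵀ).PosSemidef)
    (hC : ((4 * l ^ 2) • P l C - C'ᵀ * C').PosSemidef) :
    |Dm sm sn sp (b (2 * l) A - b l A) B' C'| ≤ 6 * l ^ 3 * (E l A B sn + E l C A sm) := by
  have e0 : Dm sm sn sp (b (2 * l) A - b l A) B' C'
      = 3 * trace ((C' * diagonal sm * Q (2 * l) A) * (b l A * diagonal sn * B' * diagonal sp)) := by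
    unfold Dm
    rw [db_eq l hl, Matrix.trace_mul_comm, Matrix.mul_smul, Matrix.smul_mul, Matrix.smul_mul,
      Matrix.smul_mul, Matrix.mul_smul, Matrix.trace_smul, smul_eq_mul]
    congr 2
    simp only [Matrix.mul_assoc]
  have hcs := cs (C' * diagonal sm * Q (2 * l) A) (b l A * diagonal sn * B' * diagonal sp) l⁻¹
    (inv_pos.mpr hl)
  have hU := term_U l hl sm A C C' hC
  have hV := term_V l hl sn sp hp A B B' hB
  rw [inv_inv] at hcs
  have h1 : l * trace ((C' * diagonal sm * Q (2 * l) A) * (C' * diagonal sm * Q (2 * l) A)ᵀ)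
      ≤ l * (4 * l ^ 2 * E l C A sm) := mul_le_mul_of_nonneg_left hU hl.le
  have h2 : l⁻¹ * trace ((b l A * diagonal sn * B' * diagonal sp)ᵀ * (b l A * diagonal sn * B' * diagonal sp))
      ≤ l⁻¹ * (4 * l ^ 4 * E l A B sn) := mul_le_mul_of_nonneg_left hV (inv_pos.mpr hl).le
  have h3 : l⁻¹ * (4 * l ^ 4 * E l A B sn) = 4 * l ^ 3 * E l A B sn := by
    field_simp
  rw [e0, abs_mul, abs_of_pos (by norm_num : (0:ℝ) < 3)]
  nlinarith [hcs, h1, h2, h3]


lemma hb1 (l : ℝ) (hl : 0 < l) (A : Matrix m n ℝ) : ((4 * l ^ 2) • Q l A - b l A * (b l A)ᵀ).PosSemidef := by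
  have h1 := (Q_psd l hl A).smul (show (0:ℝ) ≤ 3 * l ^ 2 by positivity)
  have h2 := (Q_sq_psd l A).smul (show (0:ℝ) ≤ l ^ 2 by positivity)
  have h3 := h1.add h2
  have e : (4 * l ^ 2) • Q l A - b l A * (b l A)ᵀ = (3 * l ^ 2) • Q l A + l ^ 2 • (Q l A * Q l A) := by
    rw [bb l hl, smul_sub]
    have : (4 * l ^ 2) • Q l A = (3 * l ^ 2) • Q l A + l ^ 2 • Q l A := by
      rw [← add_smul]
      congr 1
      ring
    rw [this]
    abel
  rw [e]
  exact h3


lemma hb2 (l : ℝ) (hl : 0 < l) (A : Matrix m n ℝ) :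
    ((4 * l ^ 2) • Q l A - b (2 * l) A * (b (2 * l) A)ᵀ).PosSemidef := by
  have h1 := bb (2 * l) (by positivity) A
  have h2 := (Q_mono l hl A).smul (show (0:ℝ) ≤ 4 * l ^ 2 by positivity)
  have h3 := (Q_sq_psd (2 * l) A).smul (show (0:ℝ) ≤ 4 * l ^ 2 by positivity)
  have h4 := h2.add h3
  have e : (4 * l ^ 2) • Q l A - b (2 * l) A * (b (2 * l) A)ᵀ =
      (4 * l ^ 2) • (Q l A - Q (2 * l) A) + (4 * l ^ 2) • (Q (2 * l) A * Q (2 * l) A) := by
    rw [h1, show (2 * l) ^ 2 = 4 * l ^ 2 by ring, smul_sub, smul_sub]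
    abel
  rw [e]
  exact h4


lemma hb3 (l : ℝ) (hl : 0 < l) (A : Matrix m n ℝ) : ((4 * l ^ 2) • P l A - (b l A)ᵀ * b l A).PosSemidef := by
  have := hb1 l hl Aᵀ
  rwa [Q_eq, Matrix.transpose_transpose, ← b_transpose, Matrix.transpose_transpose] at this
lemma hb4 (l : ℝ) (hl : 0 < l) (A : Matrix m n ℝ) :
    ((4 * l ^ 2) • P l A - (b (2 * l) A)ᵀ * b (2 * l) A).PosSemidef := by
  have := hb2 l hl Aᵀ
  rwa [Q_eq, Matrix.transpose_transpose, ← b_transpose, Matrix.transpose_transpose] at this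

lemma Dm_cyc (sm : m → ℝ) (sn : n → ℝ) (sp : p → ℝ) (A : Matrix m n ℝ) (B : Matrix n p ℝ) (C : Matrix p m ℝ) :
    Dm sm sn sp A B C = Dm sn sp sm B C A := by
  unfold Dm
  have h1 : diagonal sm * A * diagonal sn * B * diagonal sp * C =
      (diagonal sm * A) * (diagonal sn * B * diagonal sp * C) := by
    simp only [Matrix.mul_assoc]
  have h2 : diagonal sn * B * diagonal sp * C * diagonal sm * A =
      (diagonal sn * B * diagonal sp * C) * (diagonal sm * A) := by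
    simp only [Matrix.mul_assoc]
  rw [h1, h2, Matrix.trace_mul_comm]


lemma step (l : ℝ) (hl : 0 < l) (sm : m → ℝ) (sn : n → ℝ) (sp : p → ℝ)
    (hm : ∀ i, sm i ^ 2 = 1) (hn : ∀ i, sn i ^ 2 = 1) (hp : ∀ i, sp i ^ 2 = 1)
    (A : Matrix m n ℝ) (B : Matrix n p ℝ) (C : Matrix p m ℝ) :
    |Dm sm sn sp (b (2 * l) A) (b (2 * l) B) (b (2 * l) C) - Dm sm sn sp (b l A) (b l B) (b l C)|
      ≤ 12 * (l ^ 3 * (E l A B sn + E l B C sp + E l C A sm)) := by
  have e : Dm sm sn sp (b (2 * l) A) (b (2 * l) B) (b (2 * l) C) - Dm sm sn sp (b l A) (b l B) (b l C)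
      = Dm sm sn sp (b (2 * l) A - b l A) (b (2 * l) B) (b (2 * l) C)
        + Dm sm sn sp (b l A) (b (2 * l) B - b l B) (b (2 * l) C)
        + Dm sm sn sp (b l A) (b l B) (b (2 * l) C - b l C) := by
    unfold Dm
    simp only [Matrix.mul_sub, Matrix.sub_mul, Matrix.trace_sub]
    ring
  have t1 := term l hl sm sn sp hp A B (b (2 * l) B) C (b (2 * l) C) (hb2 l hl B) (hb4 l hl C)
  have t2 := term l hl sn sp sm hm B C (b (2 * l) C) A (b l A) (hb2 l hl C) (hb3 l hl A)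
  have t3 := term l hl sp sm sn hn C A (b l A) B (b l B) (hb1 l hl A) (hb3 l hl B)
  rw [← Dm_cyc] at t2
  rw [← Dm_cyc, ← Dm_cyc] at t3
  rw [e]
  refine (abs_add_three _ _ _).trans ?_
  linarith


lemma lim_top (A : Matrix m n ℝ) : Tendsto (fun K : ℕ => b ((2:ℝ) ^ (K:ℤ)) A) atTop (𝓝 A) := by

  have hc : Tendsto (fun K : ℕ => 1 / ((2 : ℝ) ^ (K : ℤ)) ^ 2) atTop (𝓝 0) := by
    have h1 : (fun K : ℕ => 1 / ((2 : ℝ) ^ (K : ℤ)) ^ 2) = fun K : ℕ => (1 / 4 : ℝ) ^ K := by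
      funext K
      rw [zpow_natCast, ← pow_mul, mul_comm, pow_mul, one_div, one_div, inv_pow]
      norm_num
    rw [h1]
    exact tendsto_pow_atTop_nhds_zero_of_lt_one (by norm_num) (by norm_num)
  have hφ : Tendsto (fun c : ℝ => A * (1 + c • (Aᵀ * A))⁻¹) (𝓝 0) (𝓝 A) := by
    have h1 : (fun c : ℝ => A * (1 + c • (Aᵀ * A))⁻¹) = fun c : ℝ =>
        A * (((1 + c • (Aᵀ * A)).det)⁻¹ • (1 + c • (Aᵀ * A)).adjugate) := by
      funext c
      rw [Matrix.inv_def, Ring.inverse_eq_inv']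
    rw [h1]
    have hl : Continuous (fun c : ℝ => 1 + c • (Aᵀ * A)) :=
      continuous_const.add (continuous_id.smul continuous_const)
    have h2 : ContinuousAt (fun c : ℝ =>
        A * (((1 + c • (Aᵀ * A)).det)⁻¹ • (1 + c • (Aᵀ * A)).adjugate)) 0 := by
      have h3 : ContinuousAt (fun c : ℝ => ((1 + c • (Aᵀ * A)).det)⁻¹) 0 :=
        (hl.matrix_det).continuousAt.inv₀ (by simp)
      have h4 : ContinuousAt (fun c : ℝ => (1 + c • (Aᵀ * A)).adjugate) 0 :=
        (hl.matrix_adjugate).continuousAt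
      have h5 : ContinuousAt (fun c : ℝ =>
          ((1 + c • (Aᵀ * A)).det)⁻¹ • (1 + c • (Aᵀ * A)).adjugate) 0 := h3.smul h4
      have h6 : Continuous (fun Z : Matrix n n ℝ => A * Z) :=
        continuous_const.matrix_mul continuous_id
      exact h6.continuousAt.comp h5
    have h7 := h2.tendsto
    simpa using h7
  exact hφ.comp hc


lemma lim_bot_entry (l : ℝ) (hl : 0 < l) (A : Matrix m n ℝ) (i : m) (j : n) : |b l A i j| ≤ l := by
  have h1 : (b l A * (b l A)ᵀ) i i = l ^ 2 * (Q l A i i - (Q l A * Q l A) i i) := by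
    rw [bb l hl]; simp
  have h2 : 0 ≤ (Q l A * Q l A) i i := (Q_sq_psd l A).diag_nonneg
  have h3 : 0 ≤ (1 - Q l A) i i := by
    have hpd : (1 + (1 / l ^ 2) • (A * Aᵀ)).PosDef := by
      have := posdef (1 / l ^ 2) (by positivity) Aᵀ
      rwa [Matrix.transpose_transpose] at this
    have : (1 - Q l A) = (1 + (1 / l ^ 2) • (A * Aᵀ))⁻¹ := by
      unfold Q; abel
    rw [this]
    exact hpd.inv.posSemidef.diag_nonneg
  have h4 : Q l A i i ≤ 1 := by
    rw [Matrix.sub_apply, Matrix.one_apply_eq] at h3; linarith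
  have h5 : (b l A i j) ^ 2 ≤ (b l A * (b l A)ᵀ) i i := by
    rw [Matrix.mul_apply]
    have : (b l A i j) ^ 2 = b l A i j * (b l A)ᵀ j i := by
      rw [Matrix.transpose_apply]; ring
    rw [this]
    apply Finset.single_le_sum (f := fun j => b l A i j * (b l A)ᵀ j i) _ (Finset.mem_univ j)
    intro k _
    rw [Matrix.transpose_apply]
    exact mul_self_nonneg _
  apply abs_le_of_sq_le_sq _ hl.le
  rw [h1] at h5
  have : l ^ 2 * (Q l A i i - (Q l A * Q l A) i i) ≤ l ^ 2 * 1 := by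
    apply mul_le_mul_of_nonneg_left _ (by positivity)
    linarith
  linarith


lemma lim_bot (A : Matrix m n ℝ) : Tendsto (fun K : ℕ => b ((2:ℝ) ^ (-(K:ℤ))) A) atTop (𝓝 0) := by
  refine tendsto_pi_nhds.2 fun i => tendsto_pi_nhds.2 fun j => ?_
  apply squeeze_zero_norm (a := fun K : ℕ => ((1:ℝ)/2) ^ K)
  · intro K
    rw [Real.norm_eq_abs]
    have := lim_bot_entry ((2:ℝ) ^ (-(K:ℤ))) (by positivity) A i j
    have e : ((2:ℝ) ^ (-(K:ℤ))) = ((1:ℝ)/2) ^ K := by
      rw [_root_.zpow_neg, _root_.zpow_natCast, one_div, inv_pow]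
    rw [e] at this
    rw [e]
    exact this
  · exact tendsto_pow_atTop_nhds_zero_of_lt_one (by norm_num) (by norm_num)


lemma tele_aux (f : ℤ → ℝ) (a : ℤ) (n : ℕ) :
    ∑ k ∈ Finset.Ico a (a + n), (f (k + 1) - f k) = f (a + n) - f a := by
  induction n with
  | zero => simp
  | succ n ih =>
    have h : Finset.Ico a (a + ((n + 1 : ℕ) : ℤ)) = insert (a + (n : ℤ)) (Finset.Ico a (a + n)) := by
      ext x
      simp only [Finset.mem_Ico, Finset.mem_insert]
      push_cast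
      omega
    rw [h, Finset.sum_insert (by simp), ih]
    push_cast
    rw [← add_assoc]
    ring


lemma tele (f : ℤ → ℝ) (K : ℕ) :
    ∑ k ∈ Finset.Ico (-(K:ℤ)) K, (f (k + 1) - f k) = f K - f (-(K:ℤ)) := by
  have h := tele_aux f (-(K:ℤ)) (2 * K)
  have e : -(K:ℤ) + ((2 * K : ℕ) : ℤ) = K := by push_cast; ring
  rw [e] at h
  exact h


theorem DB (sm : m → ℝ) (sn : n → ℝ) (sp : p → ℝ)
    (hm : ∀ i, sm i ^ 2 = 1) (hn : ∀ i, sn i ^ 2 = 1) (hp : ∀ i, sp i ^ 2 = 1)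
    (A : Matrix m n ℝ) (B : Matrix n p ℝ) (C : Matrix p m ℝ) (ε : ℝ) (hε : 0 < ε) :
    ∃ K0 : ℕ, ∀ K : ℕ, K0 ≤ K → |trace (diagonal sm * A * diagonal sn * B * diagonal sp * C)| ≤
      12 * ∑ k ∈ Finset.Ico (-(K:ℤ)) K, (((2:ℝ) ^ k) ^ 3 * (E ((2:ℝ) ^ k) A B sn + E ((2:ℝ) ^ k) B C sp
        + E ((2:ℝ) ^ k) C A sm)) + ε := by
  obtain ⟨f, hf⟩ : ∃ f : ℤ → ℝ, f = fun k => Dm sm sn sp (b ((2:ℝ) ^ k) A) (b ((2:ℝ) ^ k) B)
    (b ((2:ℝ) ^ k) C) := ⟨_, rfl⟩
  have hcont : Continuous (fun q : Matrix m n ℝ × Matrix n p ℝ × Matrix p m ℝ =>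
      Dm sm sn sp q.1 q.2.1 q.2.2) := by
    unfold Dm
    refine Continuous.matrix_trace ?_
    refine Continuous.matrix_mul ?_ (continuous_snd.comp continuous_snd)
    refine Continuous.matrix_mul ?_ continuous_const
    refine Continuous.matrix_mul ?_ (continuous_fst.comp continuous_snd)
    refine Continuous.matrix_mul ?_ continuous_const
    exact Continuous.matrix_mul continuous_const continuous_fst
  have h1 : Tendsto (fun K : ℕ => f K) atTop (𝓝 (Dm sm sn sp A B C)) := by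
    have h := (hcont.tendsto (A, B, C)).comp ((lim_top A).prodMk_nhds ((lim_top B).prodMk_nhds (lim_top C)))
    rw [hf]
    exact h
  have h2 : Tendsto (fun K : ℕ => f (-(K:ℤ))) atTop (𝓝 0) := by
    have h := (hcont.tendsto (0, 0, 0)).comp ((lim_bot A).prodMk_nhds ((lim_bot B).prodMk_nhds (lim_bot C)))
    have e : Dm sm sn sp (0 : Matrix m n ℝ) (0 : Matrix n p ℝ) (0 : Matrix p m ℝ) = 0 := by
      unfold Dm
      simp
    rw [← e, hf]
    exact h
  have h3 := (h1.sub h2)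
  rw [sub_zero] at h3
  rw [Metric.tendsto_atTop] at h3
  obtain ⟨K0, hK0⟩ := h3 ε hε
  refine ⟨K0, fun K hK => ?_⟩
  have h4 := hK0 K hK
  rw [Real.dist_eq, abs_sub_comm] at h4
  have h5 : |f K - f (-(K:ℤ))| ≤ 12 * ∑ k ∈ Finset.Ico (-(K:ℤ)) K, (((2:ℝ) ^ k) ^ 3 * (E ((2:ℝ) ^ k) A B sn
      + E ((2:ℝ) ^ k) B C sp + E ((2:ℝ) ^ k) C A sm)) := by
    rw [← tele f K, Finset.mul_sum]
    refine (Finset.abs_sum_le_sum_abs _ _).trans (Finset.sum_le_sum fun k _ => ?_)
    have h6 := step ((2:ℝ) ^ k) (zpow_pos (by norm_num) k) sm sn sp hm hn hp A B C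
    have e : 2 * (2:ℝ) ^ k = (2:ℝ) ^ (k + 1) := by
      rw [zpow_add_one₀ (by norm_num)]
      ring
    rw [e] at h6
    rw [hf]
    exact h6
  change |Dm sm sn sp A B C| ≤ _
  have h7 : |Dm sm sn sp A B C| ≤ |Dm sm sn sp A B C - (f K - f (-(K:ℤ)))| + |f K - f (-(K:ℤ))| := by
    have e : Dm sm sn sp A B C = (Dm sm sn sp A B C - (f K - f (-(K:ℤ)))) + (f K - f (-(K:ℤ))) := by ring
    conv_lhs => rw [e]
    exact abs_add_le _ _
  linarith



end
end Pool.Agent.Helper722.TH
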